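import Mathlib
import Pool.Agent.TH454.CM.Limit

set_option autoImplicit false

namespace Pool.Agent.Y14.CG

open Finset Filter Pool.Agent.TH454.CM

/-- A fractional cover can be replaced by one that is not more expensive and has at most `m`
nonzero coordinates. -/
theorem exists_sparse {m : ℕ} (w : Finset (Fin m) → ℝ) (hw : ∀ T, 0 ≤ w T) :
    ∀ n : ℕ, ∀ y : Finset (Fin m) → ℝ, IsFracCover m y →
      (Finset.univ.filter (fun T => y T ≠ 0)).card ≤ n →
      ∃ y' : Finset (Fin m) → ℝ, IsFracCover m y' ∧ ∑ T, w T * y' T ≤ ∑ T, w T * y T ∧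
        (Finset.univ.filter (fun T => y' T ≠ 0)).card ≤ m := by
  classical
  intro n
  induction n with
  | zero =>
    intro y hy hc
    exact ⟨y, hy, le_rfl, by omega⟩
  | succ n ih =>
    intro y hy hc
    by_cases hm : (Finset.univ.filter (fun T => y T ≠ 0)).card ≤ m
    · exact ⟨y, hy, le_rfl, hm⟩
    rw [not_le] at hm
    set S := Finset.univ.filter (fun T => y T ≠ 0) with hS
    let v : Finset (Fin m) → (Fin m → ℝ) := fun T a => if a ∈ T then 1 else 0
    have hvinj : Function.Injective v := by
      intro T T' h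
      ext a
      have h1 := congrFun h a
      simp only [v] at h1
      by_cases ha : a ∈ T
      · by_cases ha' : a ∈ T'
        · simp [ha, ha']
        · simp [ha, ha'] at h1
      · by_cases ha' : a ∈ T'
        · simp [ha, ha'] at h1
        · simp [ha, ha']
    have hcardS : Module.finrank ℝ (Fin m → ℝ) < (S.image v).card := by
      rw [Finset.card_image_of_injective _ hvinj]
      simpa using hm
    obtain ⟨f, hf, x, hx, hfx⟩ := Module.exists_nontrivial_relation_of_finrank_lt_card hcardS
    rw [Finset.sum_image (fun a _ b _ h => hvinj h)] at hf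
    obtain ⟨T1, hT1, rfl⟩ := Finset.mem_image.1 hx
    -- the direction
    let d0 : Finset (Fin m) → ℝ := fun T => if T ∈ S then f (v T) else 0
    have hd0S : ∀ T, T ∉ S → d0 T = 0 := fun T hT => by simp [d0, hT]
    have hd0c : ∀ a : Fin m,
        ∑ T ∈ Finset.univ.filter (fun T : Finset (Fin m) => a ∈ T), d0 T = 0 := by
      intro a
      have h1 := congrFun hf a
      simp only [Finset.sum_apply, Pi.smul_apply, smul_eq_mul, Pi.zero_apply] at h1
      rw [← h1, Finset.sum_filter, ← Finset.sum_subset (Finset.subset_univ S)]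
      · apply Finset.sum_congr rfl
        intro T hT
        simp only [d0, v, hT, if_true]
        split_ifs <;> simp
      · intro T _ hT
        simp [d0, hT]
    have hd0ne : d0 T1 ≠ 0 := by simp only [d0, hT1, if_true]; exact hfx
    -- orient it
    obtain ⟨d, hdS, hdc, hdw, T2, hT2⟩ : ∃ d : Finset (Fin m) → ℝ, (∀ T, T ∉ S → d T = 0) ∧
        (∀ a : Fin m, ∑ T ∈ Finset.univ.filter (fun T : Finset (Fin m) => a ∈ T), d T = 0) ∧
        ∑ T, w T * d T ≤ 0 ∧ ∃ T, d T < 0 := by
      have hneg : ∀ d : Finset (Fin m) → ℝ, ∑ T, w T * d T < 0 → ∃ T, d T < 0 := by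
        intro d hd
        by_contra hcon
        push Not at hcon
        have : 0 ≤ ∑ T, w T * d T := Finset.sum_nonneg fun T _ => mul_nonneg (hw T) (hcon T)
        linarith
      have hflip1 : ∀ T, T ∉ S → (fun T => - d0 T) T = 0 := fun T hT => by
        simp [hd0S T hT]
      have hflip2 : ∀ a : Fin m,
          ∑ T ∈ Finset.univ.filter (fun T : Finset (Fin m) => a ∈ T), (fun T => - d0 T) T = 0 := by
        intro a
        simp only [Finset.sum_neg_distrib, hd0c a, neg_zero]
      have hflip3 : ∑ T, w T * (fun T => - d0 T) T = - ∑ T, w T * d0 T := by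
        simp only [mul_neg, Finset.sum_neg_distrib]
      rcases lt_trichotomy (∑ T, w T * d0 T) 0 with h | h | h
      · exact ⟨d0, hd0S, hd0c, h.le, hneg d0 h⟩
      · rcases lt_or_gt_of_ne hd0ne with h' | h'
        · exact ⟨d0, hd0S, hd0c, h.le, T1, h'⟩
        · refine ⟨fun T => - d0 T, hflip1, hflip2, ?_, T1, ?_⟩
          · rw [hflip3, h]; simp
          · simpa using h'
      · refine ⟨fun T => - d0 T, hflip1, hflip2, ?_, hneg _ ?_⟩
        · rw [hflip3]; linarith
        · rw [hflip3]; linarith
    -- the step length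
    have hne : (Finset.univ.filter (fun T => d T < 0)).Nonempty := ⟨T2, by simpa using hT2⟩
    obtain ⟨T0, hT0, hT0min⟩ := Finset.exists_min_image _ (fun T => y T / (- d T)) hne
    have hT0' : d T0 < 0 := by simpa using hT0
    set t := y T0 / (- d T0) with ht
    have ht0 : 0 ≤ t := div_nonneg (hy.1 T0) (by linarith)
    have hT0S : T0 ∈ S := by
      by_contra hcon
      have := hdS T0 hcon
      linarith
    let y' : Finset (Fin m) → ℝ := fun T => y T + t * d T
    have hy'0 : ∀ T, 0 ≤ y' T := by
      intro T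
      simp only [y']
      by_cases hd : d T < 0
      · have h1 := hT0min T (by simpa using hd)
        have h2 : t ≤ y T / (- d T) := h1
        rw [le_div_iff₀ (by linarith)] at h2
        linarith
      · rw [not_lt] at hd
        have := mul_nonneg ht0 hd
        linarith [hy.1 T]
    have hy'T0 : y' T0 = 0 := by
      simp only [y', ht]
      have : d T0 ≠ 0 := hT0'.ne
      field_simp
      ring
    have hy'c : IsFracCover m y' := by
      refine ⟨hy'0, fun a => ?_⟩
      simp only [y']
      rw [Finset.sum_add_distrib, ← Finset.mul_sum, hdc a]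
      have := hy.2 a
      linarith
    have hcost : ∑ T, w T * y' T ≤ ∑ T, w T * y T := by
      have h1 : ∑ T, w T * y' T = ∑ T, w T * y T + t * ∑ T, w T * d T := by
        rw [Finset.mul_sum, ← Finset.sum_add_distrib]
        apply Finset.sum_congr rfl
        intro T _
        simp only [y']
        ring
      rw [h1]
      have := mul_nonneg ht0 (show 0 ≤ - ∑ T, w T * d T by linarith)
      linarith
    have hsupp : (Finset.univ.filter (fun T => y' T ≠ 0)).card ≤ n := by
      have hsub : Finset.univ.filter (fun T => y' T ≠ 0) ⊆ S.erase T0 := by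
        intro T hT
        rw [Finset.mem_filter] at hT
        rw [Finset.mem_erase]
        refine ⟨fun h => hT.2 (by rw [h]; exact hy'T0), ?_⟩
        by_contra hcon
        apply hT.2
        have h1 : y T = 0 := by
          by_contra h
          exact hcon (Finset.mem_filter.2 ⟨Finset.mem_univ _, h⟩)
        simp only [y', h1, hdS T hcon]
        simp
      have h1 := Finset.card_le_card hsub
      rw [Finset.card_erase_of_mem hT0S] at h1
      omega
    obtain ⟨z, hz1, hz2, hz3⟩ := ih y' hy'c hsupp
    exact ⟨z, hz1, hz2.trans hcost, hz3⟩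

/-- Lower bound with an explicit error term. -/
theorem lower_explicit {m : ℕ} {g : ℝ} (hg0 : 0 ≤ g) (hg : ¬ GapAtMost m g) (k : ℕ)
    (hk : m < k) :
    ∃ L : Fin k → Fin m → Finset ℕ,
      (∀ i a, g * ((k : ℝ) - m) ≤ ((L i a).card : ℝ)) ∧
      ¬ ∃ f : Fin k → Fin m → ℕ, (∀ i a, f i a ∈ L i a) ∧
        ∀ i j, i ≠ j → ∀ a b, f i a ≠ f j b := by
  classical
  unfold GapAtMost at hg
  push Not at hg
  obtain ⟨w0, y0, hw0, hy0, hC0⟩ := hg
  obtain ⟨y, hy, hyc, hys⟩ := exists_sparse w0 hw0 _ y0 hy0 le_rfl
  have hkm : (0 : ℝ) < (k : ℝ) - m := by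
    have : (m : ℝ) < k := by exact_mod_cast hk
    linarith
  -- cheapest cover for the original costs
  have hcovne : ((Finset.univ : Finset (Finset (Finset (Fin m)))).filter
      (fun C => IsCover m C)).Nonempty := by
    refine ⟨Finset.univ, ?_⟩
    rw [Finset.mem_filter]
    refine ⟨Finset.mem_univ _, fun a => ⟨{a}, Finset.mem_univ _, by simp⟩⟩
  obtain ⟨C1, hC1, hC1min⟩ := Finset.exists_min_image _ (fun C => ∑ T ∈ C, w0 T) hcovne
  rw [Finset.mem_filter] at hC1
  set OPT := ∑ T ∈ C1, w0 T with hOPT
  have hOPT0 : 0 ≤ OPT := Finset.sum_nonneg fun T _ => hw0 T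
  have hgap0 : g * ∑ T, w0 T * y T < OPT := by
    refine lt_of_le_of_lt ?_ (hC0 C1 hC1.2)
    exact mul_le_mul_of_nonneg_left hyc hg0
  -- capped costs
  let w : Finset (Fin m) → ℝ := fun T => min (w0 T) OPT
  have hw : ∀ T, 0 ≤ w T := fun T => le_min (hw0 T) hOPT0
  have hwO : ∀ T, w T ≤ OPT := fun T => min_le_right _ _
  have hOPTle : ∀ C, IsCover m C → OPT ≤ ∑ T ∈ C, w T := by
    intro C hCc
    by_cases hbig : ∃ T ∈ C, OPT ≤ w0 T
    · obtain ⟨T, hT, hTO⟩ := hbig
      have h1 : w T = OPT := min_eq_right hTO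
      rw [← h1]
      exact Finset.single_le_sum (f := w) (fun T _ => hw T) hT
    · push Not at hbig
      have h1 : ∑ T ∈ C, w T = ∑ T ∈ C, w0 T :=
        Finset.sum_congr rfl fun T hT => min_eq_left (hbig T hT).le
      rw [h1]
      exact hC1min C (Finset.mem_filter.2 ⟨Finset.mem_univ _, hCc⟩)
  set Ω := ∑ T, w T * y T with hΩ
  have hgap : g * Ω < OPT := by
    refine lt_of_le_of_lt ?_ hgap0
    apply mul_le_mul_of_nonneg_left _ hg0
    apply Finset.sum_le_sum
    intro T _
    exact mul_le_mul_of_nonneg_right (min_le_left _ _) (hy.1 T)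
  set x : ℝ := g * ((k : ℝ) - m) with hx
  have hx0 : 0 ≤ x := mul_nonneg hg0 hkm.le
  let n : Finset (Fin m) → ℕ := fun T => ⌈y T * x⌉₊
  let e : (Σ _ : Finset (Fin m), ℕ) → ℕ := fun s => Encodable.encode (s.1, s.2)
  have he : Function.Injective e := by
    intro s s' h
    have h1 := Encodable.encode_injective h
    rw [Prod.mk.injEq] at h1
    rcases s with ⟨a, b⟩
    rcases s' with ⟨a', b'⟩
    simp only at h1
    rw [h1.1, h1.2]
  let S : Fin m → Finset (Σ _ : Finset (Fin m), ℕ) := fun a =>
    (Finset.univ.filter (fun T : Finset (Fin m) => a ∈ T)).sigma (fun T => Finset.range (n T))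
  let U : Finset (Σ _ : Finset (Fin m), ℕ) :=
    (Finset.univ : Finset (Finset (Fin m))).sigma (fun T => Finset.range (n T))
  have hSU : ∀ a, S a ⊆ U := by
    intro a s hs
    simp only [S, U, Finset.mem_sigma, Finset.mem_filter, Finset.mem_univ, true_and] at hs ⊢
    exact hs.2
  refine ⟨fun _ a => (S a).image e, ?_, ?_⟩
  · intro i a
    rw [Finset.card_image_of_injective _ he, Finset.card_sigma]
    push_cast
    simp only [Finset.card_range]
    calc x = 1 * x := by ring
      _ ≤ (∑ T ∈ Finset.univ.filter (fun T : Finset (Fin m) => a ∈ T), y T) * x :=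
          mul_le_mul_of_nonneg_right (hy.2 a) hx0
      _ = ∑ T ∈ Finset.univ.filter (fun T : Finset (Fin m) => a ∈ T), y T * x := by
          rw [Finset.sum_mul]
      _ ≤ ∑ T ∈ Finset.univ.filter (fun T : Finset (Fin m) => a ∈ T), (n T : ℝ) :=
          Finset.sum_le_sum fun T _ => Nat.le_ceil _
  · rintro ⟨f, hf1, hf2⟩
    have hex : ∀ i a, ∃ s, s ∈ S a ∧ e s = f i a := by
      intro i a
      exact Finset.mem_image.1 (hf1 i a)
    choose s hs1 hs2 using hex
    let K : Fin k → Finset (Σ _ : Finset (Fin m), ℕ) := fun i => Finset.univ.image (s i)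
    have hKU : ∀ i, K i ⊆ U := by
      intro i c hc
      obtain ⟨a, _, rfl⟩ := Finset.mem_image.1 hc
      exact hSU a (hs1 i a)
    have hdisj : ∀ i j, i ≠ j → Disjoint (K i) (K j) := by
      intro i j hij
      rw [Finset.disjoint_left]
      intro c hc hc'
      obtain ⟨a, _, ha⟩ := Finset.mem_image.1 hc
      obtain ⟨b, _, hb⟩ := Finset.mem_image.1 hc'
      apply hf2 i j hij a b
      rw [← hs2 i a, ← hs2 j b, ha, hb]
    have hcost : ∀ i, OPT ≤ ∑ c ∈ K i, w c.1 := by
      intro i
      have hcov : IsCover m ((K i).image Sigma.fst) := by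
        intro a
        refine ⟨(s i a).1, ?_, ?_⟩
        · exact Finset.mem_image_of_mem _ (Finset.mem_image_of_mem _ (Finset.mem_univ _))
        · have := hs1 i a
          simp only [S, Finset.mem_sigma, Finset.mem_filter, Finset.mem_univ, true_and] at this
          exact this.1
      refine (hOPTle _ hcov).trans ?_
      rw [← Finset.sum_fiberwise_of_maps_to (s := K i) (t := (K i).image Sigma.fst)
        (g := Sigma.fst) (fun c hc => Finset.mem_image_of_mem _ hc)]
      apply Finset.sum_le_sum
      intro T hT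
      obtain ⟨c, hc, hcT⟩ := Finset.mem_image.1 hT
      have h1 : w c.1 ≤ ∑ c' ∈ (K i).filter (fun c' => c'.1 = T), w c'.1 := by
        apply Finset.single_le_sum (f := fun c' : (Σ _ : Finset (Fin m), ℕ) => w c'.1)
          (fun c' _ => hw _)
        exact Finset.mem_filter.2 ⟨hc, hcT⟩
      rw [hcT] at h1
      exact h1
    have htotal : (k : ℝ) * OPT ≤ ∑ c ∈ U, w c.1 := by
      calc (k : ℝ) * OPT = ∑ _i : Fin k, OPT := by simp
        _ ≤ ∑ i : Fin k, ∑ c ∈ K i, w c.1 := Finset.sum_le_sum fun i _ => hcost i
        _ = ∑ c ∈ Finset.univ.biUnion K, w c.1 := by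
            rw [Finset.sum_biUnion]
            intro i _ j _ hij
            exact hdisj i j hij
        _ ≤ ∑ c ∈ U, w c.1 := by
            apply Finset.sum_le_sum_of_subset_of_nonneg
            · intro c hc
              obtain ⟨i, _, hi⟩ := Finset.mem_biUnion.1 hc
              exact hKU i hi
            · intro c _ _
              exact hw _
    have hU : ∑ c ∈ U, w c.1 ≤ x * Ω + m * OPT := by
      have h1 : ∑ c ∈ U, w c.1 = ∑ T, (n T : ℝ) * w T := by
        simp only [U]
        rw [Finset.sum_sigma]
        apply Finset.sum_congr rfl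
        intro T _
        simp
      rw [h1]
      calc ∑ T, (n T : ℝ) * w T ≤ ∑ T, (y T * x * w T + if y T ≠ 0 then OPT else 0) := by
            apply Finset.sum_le_sum
            intro T _
            by_cases hyT : y T = 0
            · simp [n, hyT]
            · simp only [n, ne_eq, hyT, not_false_eq_true, if_true]
              have h2 : ((⌈y T * x⌉₊ : ℕ) : ℝ) ≤ y T * x + 1 :=
                (Nat.ceil_lt_add_one (mul_nonneg (hy.1 T) hx0)).le
              have h3 := mul_le_mul_of_nonneg_right h2 (hw T)
              have h4 := hwO T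
              linarith
        _ = x * Ω + ((Finset.univ.filter (fun T => y T ≠ 0)).card : ℝ) * OPT := by
            rw [Finset.sum_add_distrib, hΩ, Finset.mul_sum, ← Finset.sum_filter,
              Finset.sum_const, nsmul_eq_mul]
            congr 1
            apply Finset.sum_congr rfl
            intro T _
            ring
        _ ≤ x * Ω + m * OPT := by
            have h5 : ((Finset.univ.filter (fun T => y T ≠ 0)).card : ℝ) ≤ m := by
              exact_mod_cast hys
            have := mul_le_mul_of_nonneg_right h5 hOPT0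
            linarith
    have h6 : x * Ω = (g * Ω) * ((k : ℝ) - m) := by rw [hx]; ring
    have h7 : (g * Ω) * ((k : ℝ) - m) < OPT * ((k : ℝ) - m) := mul_lt_mul_of_pos_right hgap hkm
    nlinarith

end Pool.Agent.Y14.CG
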