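import Mathlib
import Pool.Agent.TH454.CM.Limit

set_option autoImplicit false

namespace Pool.Agent.Y14.CG

open Finset Filter Pool.Agent.TH454.CM

/-- The integrality gap is attained. -/
theorem gapAtMost_gap (m : ℕ) : GapAtMost m (gap m) := by
  classical
  intro w y hw hy
  set Ω := ∑ T, w T * y T with hΩ
  have hΩ0 : 0 ≤ Ω := Finset.sum_nonneg fun T _ => mul_nonneg (hw T) (hy.1 T)
  have hcovne : ((Finset.univ : Finset (Finset (Finset (Fin m)))).filter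
      (fun C => IsCover m C)).Nonempty := by
    refine ⟨Finset.univ, ?_⟩
    rw [Finset.mem_filter]
    refine ⟨Finset.mem_univ _, fun a => ⟨{a}, Finset.mem_univ _, by simp⟩⟩
  obtain ⟨C0, hC0, hC0min⟩ := Finset.exists_min_image _ (fun C => ∑ T ∈ C, w T) hcovne
  rw [Finset.mem_filter] at hC0
  refine ⟨C0, hC0.2, ?_⟩
  apply le_of_forall_pos_le_add
  intro ε hε
  have hlt : gap m < gap m + ε / (Ω + 1) := by
    have : 0 < ε / (Ω + 1) := by positivity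
    linarith
  obtain ⟨g, hg, hgb⟩ := exists_lt_of_csInf_lt (gap_set_nonempty m) hlt
  obtain ⟨C, hC, hCc⟩ := hg w y hw hy
  have h1 := hC0min C (Finset.mem_filter.2 ⟨Finset.mem_univ _, hC⟩)
  have h2 : g * Ω ≤ (gap m + ε / (Ω + 1)) * Ω := mul_le_mul_of_nonneg_right hgb.le hΩ0
  have h3 : ε / (Ω + 1) * Ω ≤ ε := by
    rw [div_mul_eq_mul_div, div_le_iff₀ (by linarith)]
    nlinarith
  have h4 : ∑ T ∈ C0, w T ≤ ∑ T ∈ C, w T := h1
  have h5 : (gap m + ε / (Ω + 1)) * Ω = gap m * Ω + ε / (Ω + 1) * Ω := by ring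
  have h6 : ∑ T ∈ C, w T ≤ g * Ω := hCc
  linarith

theorem two_le_pow (r : ℕ) (hr : 1 ≤ r) : (2 : ℝ) ≤ (1 + 1 / (r : ℝ)) ^ r := by
  have hr0 : (0 : ℝ) < r := by exact_mod_cast hr
  have h1 : (-2 : ℝ) ≤ 1 / (r : ℝ) := by
    have : (0 : ℝ) ≤ 1 / (r : ℝ) := by positivity
    linarith
  have h := one_add_mul_le_pow h1 r
  have h2 : (1 : ℝ) + r * (1 / (r : ℝ)) = 2 := by
    field_simp
    norm_num
  linarith

/-- Upper bound with explicit error terms. -/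
theorem upper_explicit {m : ℕ} {g : ℝ} (hg : GapAtMost m g) (hg0 : 0 ≤ g) (k r : ℕ) (hk : 1 ≤ k)
    (hr : 1 ≤ r) (s : ℕ)
    (hs : ((r : ℝ) + 1) ^ 2 * (g * k / (r : ℝ) ^ 2 + 2 ^ m * ((Nat.log 2 (k * m) : ℝ) + 1)) ≤ s) :
    ∀ L : Fin k → Fin m → Finset ℕ, (∀ i a, (L i a).card = s) →
      ∃ f : Fin k → Fin m → ℕ, (∀ i a, f i a ∈ L i a) ∧
        ∀ i j, i ≠ j → ∀ a b, f i a ≠ f j b := by
  classical
  intro L hL
  have hr0 : (0 : ℝ) < r := by exact_mod_cast hr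
  have hk0 : (0 : ℝ) < k := by exact_mod_cast hk
  set ℓ : ℕ := Nat.log 2 (k * m) + 1 with hℓ
  have hℓ1 : 1 ≤ ℓ := by omega
  have hℓR : ((Nat.log 2 (k * m) : ℝ) + 1) = (ℓ : ℝ) := by rw [hℓ]; push_cast; ring
  rw [hℓR] at hs
  have hℓ0 : (0 : ℝ) < ℓ := by exact_mod_cast hℓ1
  have hspos : (0 : ℝ) < s := by
    refine lt_of_lt_of_le ?_ hs
    positivity
  set η : ℝ := 1 / (r : ℝ) with hη
  have hη0 : 0 < η := by positivity
  have h1η : (0 : ℝ) < 1 + η := by linarith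
  set q : ℕ := r * ℓ with hq
  have hq1 : 1 ≤ q := Nat.mul_pos hr hℓ1
  have hpow : (k : ℝ) * m ≤ (1 + η) ^ q := by
    rw [hq, pow_mul]
    have h1 : (2 : ℝ) ^ ℓ ≤ ((1 + η) ^ r) ^ ℓ :=
      pow_le_pow_left₀ (by norm_num) (two_le_pow r hr) ℓ
    have h2 : k * m < 2 ^ ℓ := Nat.lt_pow_succ_log_self (by norm_num) _
    have h3 : ((k * m : ℕ) : ℝ) < ((2 ^ ℓ : ℕ) : ℝ) := by exact_mod_cast h2
    push_cast at h3
    linarith
  set B : ℝ := (q : ℝ) * 2 ^ m * (1 + η) / η with hB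
  have hB' : (q : ℝ) * 2 ^ m * (1 + η) ≤ η * B := by
    rw [hB]; apply le_of_eq; field_simp
  set u : ℝ := (s : ℝ) / (1 + η) with hu
  have hu0 : 0 < u := by positivity
  have hcard : (Finset.univ : Finset (Fin k)).card = k := by simp
  have hpos : ∀ i a, (0 : ℝ) < ((L i a).card : ℝ) := fun i a => by rw [hL i a]; exact hspos
  have hA : B + (1 + η) * g * k ≤ u := by
    rw [hu, le_div_iff₀ h1η]
    refine le_trans (le_of_eq ?_) hs
    rw [hB, hη, hq]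
    push_cast
    field_simp
    ring
  have hBB : ∑ i : Fin k, ∑ a : Fin m, (((L i a).card : ℝ)⁻¹) ^ q ≤ (u⁻¹) ^ q := by
    calc ∑ i : Fin k, ∑ a : Fin m, (((L i a).card : ℝ)⁻¹) ^ q
        = ∑ i : Fin k, ∑ a : Fin m, ((s : ℝ)⁻¹) ^ q := by
          apply Finset.sum_congr rfl
          intro i _
          apply Finset.sum_congr rfl
          intro a _
          rw [hL i a]
      _ = (k * m) * ((s : ℝ)⁻¹) ^ q := by
          simp [Finset.sum_const]; ring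
      _ ≤ (1 + η) ^ q * ((s : ℝ)⁻¹) ^ q :=
          mul_le_mul_of_nonneg_right hpow (by positivity)
      _ = (u⁻¹) ^ q := by
          rw [← mul_pow, hu]
          congr 1
          field_simp
  obtain ⟨f, hf1, hf2⟩ := step_induction hg hg0 hη0 q hq1 B hB' k Finset.univ L u hcard
    (fun i _ a => Finset.card_pos.1 (by exact_mod_cast hpos i a)) hA hBB
  exact ⟨f, fun i a => hf1 i (Finset.mem_univ _) a,
      fun i j h a b => hf2 i (Finset.mem_univ _) j (Finset.mem_univ _) h a b⟩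

theorem one_le_gap {m : ℕ} (hm : 1 ≤ m) : 1 ≤ gap m :=
  le_csInf (gap_set_nonempty m) fun _ hg => one_le_of_gapAtMost hm hg

theorem gap_le {m : ℕ} (hm : 1 ≤ m) : gap m ≤ m :=
  csInf_le (gap_set_bddBelow hm) (gapAtMost_self m)

/-- The choice number of `K_{m*k}` is at most any real above the bound of `upper_explicit`. -/
theorem choiceNum_le {m : ℕ} (hm : 1 ≤ m) (k r : ℕ) (hk : 1 ≤ k) (hr : 1 ≤ r) (s : ℕ)
    (hs : ((r : ℝ) + 1) ^ 2 *
      (gap m * k / (r : ℝ) ^ 2 + 2 ^ m * ((Nat.log 2 (k * m) : ℝ) + 1)) ≤ s) :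
    (∀ L : Fin k × Fin m → Finset ℕ, (∀ v, (L v).card = s) →
      ∃ f : Fin k × Fin m → ℕ, (∀ v, f v ∈ L v) ∧
        ∀ u v, (SimpleGraph.completeEquipartiteGraph k m).Adj u v → f u ≠ f v) := by
  rw [choosable_iff]
  exact upper_explicit (gapAtMost_gap m) (by linarith [one_le_gap hm]) k r hk hr s hs

theorem choiceNum_le' {m : ℕ} (hm : 1 ≤ m) (k r : ℕ) (hk : 1 ≤ k) (hr : 1 ≤ r) :
    (choiceNum (SimpleGraph.completeEquipartiteGraph k m) : ℝ) ≤ ((r : ℝ) + 1) ^ 2 *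
      (gap m * k / (r : ℝ) ^ 2 + 2 ^ m * ((Nat.log 2 (k * m) : ℝ) + 1)) + 1 := by
  have hg1 := one_le_gap hm
  have hr0 : (0 : ℝ) < r := by exact_mod_cast hr
  have h := choiceNum_le hm k r hk hr _ (Nat.le_ceil _)
  have h1 : choiceNum (SimpleGraph.completeEquipartiteGraph k m) ≤ _ := Nat.sInf_le h
  have h2 := (Nat.cast_le (α := ℝ)).2 h1
  refine h2.trans (Nat.ceil_lt_add_one ?_).le
  positivity

end Pool.Agent.Y14.CG
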