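import Mathlib
import Pool.Agent.TH454.CM.Upper

set_option autoImplicit false

namespace Pool.Agent.Y14.CG

open Finset Pool.Agent.TH454.CM

/-- A cheap set of at most `m` colours hitting all the lists of one part. -/
theorem exists_hitting' {m : ℕ} {g : ℝ} (hg : GapAtMost m g) (hg0 : 0 ≤ g)
    (Λ : Fin m → Finset ℕ) (u : ℝ) (hu : 0 < u) (hΛ : ∀ a, u ≤ (Λ a).card)
    (w : ℕ → ℝ) (hw : ∀ c, 0 ≤ w c) :
    ∃ K : Finset ℕ, K.card ≤ m ∧ (∀ a, ∃ c ∈ K, c ∈ Λ a) ∧
      ∑ c ∈ K, w c ≤ g * ((∑ c ∈ Finset.univ.biUnion Λ, w c) / u) := by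
  classical
  obtain ⟨K, _, hKhit, hKw⟩ := exists_hitting hg hg0 Λ u hu hΛ w hw
  choose κ hκ1 hκ2 using hKhit
  refine ⟨Finset.univ.image κ, ?_, ?_, ?_⟩
  · refine Finset.card_image_le.trans ?_
    simp
  · intro a
    exact ⟨κ a, Finset.mem_image_of_mem _ (Finset.mem_univ _), hκ2 a⟩
  · refine le_trans ?_ hKw
    apply Finset.sum_le_sum_of_subset_of_nonneg
    · intro c hc
      obtain ⟨a, _, rfl⟩ := Finset.mem_image.1 hc
      exact hκ1 a
    · intro c _ _
      exact hw c

/-- The sequential colouring procedure, controlled by the potential `∑ |L|^{-q}`, with parameters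
depending on the number of parts that remain. -/
theorem step_induction' {ι : Type} [DecidableEq ι] {m : ℕ} (hm : 1 ≤ m) {g : ℝ}
    (hg : GapAtMost m g) (hg0 : 0 ≤ g) (q : ℕ) (hq : 1 ≤ q) (η β : ℕ → ℝ)
    (hη : ∀ n, 0 < η n) (hβpos : ∀ n, 0 < β n)
    (hβ : ∀ n, (q : ℝ) * m * (1 + η n) ≤ η n * β n)
    (hβs : ∀ n, β n + (1 + η (n + 1)) * g ≤ β (n + 1)) :
    ∀ n : ℕ, ∀ (R : Finset ι) (L : ι → Fin m → Finset ℕ) (u : ℝ), R.card = n →
      (∀ i ∈ R, ∀ a, (L i a).Nonempty) →
      β n ≤ u →
      ∑ i ∈ R, ∑ a, (((L i a).card : ℝ)⁻¹) ^ q ≤ (u⁻¹) ^ q →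
      ∃ f : ι → Fin m → ℕ, (∀ i ∈ R, ∀ a, f i a ∈ L i a) ∧
        ∀ i ∈ R, ∀ j ∈ R, i ≠ j → ∀ a b, f i a ≠ f j b := by
  have hq' : (1 : ℝ) ≤ q := by exact_mod_cast hq
  have hm' : (1 : ℝ) ≤ m := by exact_mod_cast hm
  intro n
  induction n with
  | zero =>
    intro R L u hR _ _ _
    rw [Finset.card_eq_zero] at hR
    subst hR
    exact ⟨fun _ _ => 0, by simp, by simp⟩
  | succ n ih =>
    intro R L u hR hne hu hΦ
    set ν := η (n + 1) with hν
    have hν0 : 0 < ν := hη _
    set B := β (n + 1) with hBdef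
    have hB : (q : ℝ) * m * (1 + ν) ≤ ν * B := hβ (n + 1)
    have hBpos : (m : ℝ) < B := by
      have h1 : (m : ℝ) * (1 + ν) ≤ (q : ℝ) * m * (1 + ν) := by
        have : (m : ℝ) ≤ (q : ℝ) * m := by nlinarith
        nlinarith
      by_contra hc
      rw [not_lt] at hc
      nlinarith
    obtain ⟨i, hi⟩ : R.Nonempty := by
      rw [← Finset.card_pos]; omega
    set R' := R.erase i with hR'
    have hR'c : R'.card = n := by rw [hR', Finset.card_erase_of_mem hi]; omega
    set z := (1 + ν) * g with hz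
    have hz0 : 0 ≤ z := by positivity
    have hupos : 0 < u := lt_of_lt_of_le (hβpos _) hu
    have hstep : β n + z ≤ B := hβs n
    have hzu : z < u := by
      have := hβpos n
      linarith
    have huB : B ≤ u := hu
    -- all lists are long
    have hlong : ∀ j ∈ R, ∀ a, u ≤ ((L j a).card : ℝ) := by
      intro j hj a
      have hcpos : (0 : ℝ) < ((L j a).card : ℝ) := by
        exact_mod_cast Finset.card_pos.2 (hne j hj a)
      have h1 : (((L j a).card : ℝ)⁻¹) ^ q ≤ (u⁻¹) ^ q := by
        refine le_trans ?_ hΦ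
        refine le_trans ?_ (Finset.single_le_sum (f := fun i => ∑ a, (((L i a).card : ℝ)⁻¹) ^ q)
          (fun i _ => Finset.sum_nonneg fun a _ => by positivity) hj)
        exact Finset.single_le_sum (f := fun a => (((L j a).card : ℝ)⁻¹) ^ q)
          (fun a _ => by positivity) (Finset.mem_univ a)
      have h2 : ((L j a).card : ℝ)⁻¹ ≤ u⁻¹ :=
        le_of_pow_le_pow_left₀ (by omega) (by positivity) h1
      rwa [inv_le_inv₀ hcpos hupos] at h2
    -- costs of the colours
    let w : ℕ → ℝ := fun c => ∑ j ∈ R', ∑ a, if c ∈ L j a then (((L j a).card : ℝ)⁻¹) ^ (q + 1)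
      else 0
    have hw : ∀ c, 0 ≤ w c := by
      intro c
      apply Finset.sum_nonneg; intro j _
      apply Finset.sum_nonneg; intro a _
      split_ifs
      · positivity
      · exact le_refl _
    have hwsum : ∀ K : Finset ℕ, ∑ c ∈ K, w c =
        ∑ j ∈ R', ∑ a, (((L j a).card : ℝ)⁻¹) ^ (q + 1) * ((K ∩ L j a).card : ℝ) := by
      intro K
      simp only [w]
      rw [Finset.sum_comm]
      apply Finset.sum_congr rfl; intro j _
      rw [Finset.sum_comm]
      apply Finset.sum_congr rfl; intro a _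
      rw [← Finset.sum_filter, Finset.sum_const, nsmul_eq_mul, mul_comm]
      congr 2
    set Φ' := ∑ j ∈ R', ∑ a, (((L j a).card : ℝ)⁻¹) ^ q with hΦ'
    have hΦ'le : Φ' ≤ (u⁻¹) ^ q := by
      refine le_trans ?_ hΦ
      apply Finset.sum_le_sum_of_subset_of_nonneg (Finset.erase_subset _ _)
      intro j _ _
      exact Finset.sum_nonneg fun a _ => by positivity
    have hΦ'0 : 0 ≤ Φ' := Finset.sum_nonneg fun j _ => Finset.sum_nonneg fun a _ => by positivity
    obtain ⟨K, hKc, hKhit, hKw⟩ := exists_hitting' hg hg0 (L i) u hupos (hlong i hi) w hw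
    have hPw : ∑ c ∈ Finset.univ.biUnion (L i), w c ≤ Φ' := by
      rw [hwsum]
      apply Finset.sum_le_sum; intro j hj
      apply Finset.sum_le_sum; intro a _
      have hjR : j ∈ R := Finset.mem_of_mem_erase hj
      have hcpos : (0 : ℝ) < ((L j a).card : ℝ) := by
        exact_mod_cast Finset.card_pos.2 (hne j hjR a)
      have h1 : (((Finset.univ.biUnion (L i)) ∩ L j a).card : ℝ) ≤ ((L j a).card : ℝ) := by
        exact_mod_cast Finset.card_le_card Finset.inter_subset_right
      calc (((L j a).card : ℝ)⁻¹) ^ (q + 1) * (((Finset.univ.biUnion (L i)) ∩ L j a).card : ℝ)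
          ≤ (((L j a).card : ℝ)⁻¹) ^ (q + 1) * ((L j a).card : ℝ) :=
            mul_le_mul_of_nonneg_left h1 (by positivity)
        _ = (((L j a).card : ℝ)⁻¹) ^ q := by
            rw [pow_succ]; field_simp
    have hKw' : ∑ c ∈ K, w c ≤ g * (Φ' / u) :=
      hKw.trans (mul_le_mul_of_nonneg_left (div_le_div_of_nonneg_right hPw hupos.le) hg0)
    -- new lists
    let L' : ι → Fin m → Finset ℕ := fun j a => L j a \ K
    have hcard' : ∀ j a, ((L' j a).card : ℝ) = ((L j a).card : ℝ) - ((K ∩ L j a).card : ℝ) := by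
      intro j a
      have := Finset.card_sdiff_add_card_inter (L j a) K
      rw [Finset.inter_comm] at this
      simp only [L']
      rw [← this]
      push_cast
      ring_nf
    have hKd : ∀ j a, ((K ∩ L j a).card : ℝ) ≤ m := by
      intro j a
      have h1 : (K ∩ L j a).card ≤ m :=
        (Finset.card_le_card Finset.inter_subset_left).trans hKc
      exact_mod_cast h1
    have hne' : ∀ j ∈ R', ∀ a, (L' j a).Nonempty := by
      intro j hj a
      rw [← Finset.card_pos]
      have h1 : (0 : ℝ) < ((L' j a).card : ℝ) := by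
        rw [hcard']
        have := hlong j (Finset.mem_of_mem_erase hj) a
        have := hKd j a
        linarith
      exact_mod_cast h1
    have hΦnew : ∑ j ∈ R', ∑ a, (((L' j a).card : ℝ)⁻¹) ^ q ≤ ((u - z)⁻¹) ^ q := by
      have h1 : ∀ j ∈ R', ∀ a, (((L' j a).card : ℝ)⁻¹) ^ q ≤ (((L j a).card : ℝ)⁻¹) ^ q +
          (1 + ν) * q * ((((L j a).card : ℝ)⁻¹) ^ (q + 1) * ((K ∩ L j a).card : ℝ)) := by
        intro j hj a
        rw [hcard']
        have hjR := Finset.mem_of_mem_erase hj
        have hl := hlong j hjR a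
        apply pow_step hν0 (Nat.cast_nonneg _) (by linarith) _ hq
        have hd := hKd j a
        calc (q : ℝ) * ((K ∩ L j a).card : ℝ) * (1 + ν) ≤ (q : ℝ) * m * (1 + ν) := by
              apply mul_le_mul_of_nonneg_right _ (by linarith)
              exact mul_le_mul_of_nonneg_left hd (by linarith)
          _ ≤ ν * B := hB
          _ ≤ ν * ((L j a).card : ℝ) := mul_le_mul_of_nonneg_left (by linarith) hν0.le
      calc ∑ j ∈ R', ∑ a, (((L' j a).card : ℝ)⁻¹) ^ q
          ≤ ∑ j ∈ R', ∑ a, ((((L j a).card : ℝ)⁻¹) ^ q +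
          (1 + ν) * q * ((((L j a).card : ℝ)⁻¹) ^ (q + 1) * ((K ∩ L j a).card : ℝ))) :=
            Finset.sum_le_sum fun j hj => Finset.sum_le_sum fun a _ => h1 j hj a
        _ = Φ' + (1 + ν) * q * ∑ c ∈ K, w c := by
            rw [hwsum, hΦ', Finset.mul_sum, ← Finset.sum_add_distrib]
            apply Finset.sum_congr rfl; intro j _
            rw [Finset.sum_add_distrib, Finset.mul_sum]
        _ ≤ Φ' + (1 + ν) * q * (g * (Φ' / u)) := by
            have : 0 ≤ (1 + ν) * (q : ℝ) := by positivity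
            have := mul_le_mul_of_nonneg_left hKw' this
            linarith
        _ = Φ' * (1 + q * (z / u)) := by rw [hz]; ring
        _ ≤ (u⁻¹) ^ q * (1 + q * (z / u)) :=
            mul_le_mul_of_nonneg_right hΦ'le (by positivity)
        _ ≤ ((u - z)⁻¹) ^ q := u_step hupos hz0 hzu
    obtain ⟨f, hf1, hf2⟩ := ih R' L' (u - z) hR'c hne' (by linarith) hΦnew
    choose κ hκ1 hκ2 using hKhit
    refine ⟨fun j a => if j = i then κ a else f j a, ?_, ?_⟩
    · intro j hj a
      by_cases h : j = i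
      · subst h; simp only [if_true]; exact hκ2 a
      · simp only [if_neg h]
        have := hf1 j (Finset.mem_erase.2 ⟨h, hj⟩) a
        simp only [L'] at this
        exact (Finset.mem_sdiff.1 this).1
    · intro j hj l hl hjl a b
      by_cases h : j = i
      · have h' : l ≠ i := fun e => hjl (h.trans e.symm)
        simp only [if_pos h, if_neg h']
        intro e
        have := hf1 l (Finset.mem_erase.2 ⟨h', hl⟩) b
        simp only [L'] at this
        exact (Finset.mem_sdiff.1 this).2 (e ▸ hκ1 a)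
      · by_cases h' : l = i
        · simp only [if_neg h, if_pos h']
          intro e
          have := hf1 j (Finset.mem_erase.2 ⟨h, hj⟩) a
          simp only [L'] at this
          exact (Finset.mem_sdiff.1 this).2 (e ▸ hκ1 b)
        · simp only [if_neg h, if_neg h']
          exact hf2 j (Finset.mem_erase.2 ⟨h, hj⟩) l (Finset.mem_erase.2 ⟨h', hl⟩) hjl a b

end Pool.Agent.Y14.CG
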