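import Mathlib
import Pool.Agent.TH454.CM.Limit
import Pool.Agent.Y14.CG.Step
import Pool.Agent.Y14.CG.Upper

set_option autoImplicit false

namespace Pool.Agent.Y14.CG

open Finset Filter Pool.Agent.TH454.CM

/-- Upper bound with explicit error terms, sharper form. -/
theorem upper_explicit' {m : ℕ} (hm : 1 ≤ m) {g : ℝ} (hg : GapAtMost m g) (hg0 : 0 ≤ g)
    (k r : ℕ) (hr : 1 ≤ r) (s : ℕ) (c : ℝ)
    (hc : c = (r : ℝ) * ((Nat.log 2 (k * m) : ℝ) + 1) * m)
    (hs : (1 + 1 / (r : ℝ)) * (2 * c + g * k + c * (Real.log (c + g * k) - Real.log c)) ≤ s) :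
    ∀ L : Fin k → Fin m → Finset ℕ, (∀ i a, (L i a).card = s) →
      ∃ f : Fin k → Fin m → ℕ, (∀ i a, f i a ∈ L i a) ∧
        ∀ i j, i ≠ j → ∀ a b, f i a ≠ f j b := by
  classical
  intro L hL
  have hr0 : (0 : ℝ) < r := by exact_mod_cast hr
  have hm0 : (0 : ℝ) < m := by exact_mod_cast hm
  set ℓ : ℕ := Nat.log 2 (k * m) + 1 with hℓ
  have hℓ1 : 1 ≤ ℓ := by omega
  have hℓR : ((Nat.log 2 (k * m) : ℝ) + 1) = (ℓ : ℝ) := by rw [hℓ]; push_cast; ring
  rw [hℓR] at hc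
  have hℓ0 : (0 : ℝ) < ℓ := by exact_mod_cast hℓ1
  set q : ℕ := r * ℓ with hq
  have hq1 : 1 ≤ q := Nat.mul_pos hr hℓ1
  have hcq : c = (q : ℝ) * m := by rw [hc, hq]; push_cast; ring
  have hc0 : 0 < c := by rw [hc]; positivity
  let β : ℕ → ℝ := fun n => 2 * c + g * n + c * (Real.log (c + g * n) - Real.log c)
  let η : ℕ → ℝ := fun n => c / (c + g * n)
  have hden : ∀ n : ℕ, 0 < c + g * (n : ℝ) := fun n => by positivity
  have hη : ∀ n, 0 < η n := fun n => div_pos hc0 (hden n)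
  have hlog0 : ∀ n : ℕ, 0 ≤ Real.log (c + g * (n : ℝ)) - Real.log c := by
    intro n
    rw [sub_nonneg]
    apply Real.log_le_log hc0
    have : 0 ≤ g * (n : ℝ) := by positivity
    linarith
  have hβge : ∀ n : ℕ, 2 * c + g * (n : ℝ) ≤ β n := by
    intro n
    simp only [β]
    have := mul_nonneg hc0.le (hlog0 n)
    linarith
  have hβpos : ∀ n, 0 < β n := by
    intro n
    have h1 := hβge n
    have h2 : 0 ≤ g * (n : ℝ) := by positivity
    linarith
  have hβ : ∀ n, (q : ℝ) * m * (1 + η n) ≤ η n * β n := by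
    intro n
    rw [← hcq]
    have h1 : η n * (c + g * (n : ℝ)) = c := by
      simp only [η]
      exact div_mul_cancel₀ _ (hden n).ne'
    have h2 : η n * (2 * c + g * (n : ℝ)) ≤ η n * β n :=
      mul_le_mul_of_nonneg_left (hβge n) (hη n).le
    nlinarith
  have hβs : ∀ n, β n + (1 + η (n + 1)) * g ≤ β (n + 1) := by
    intro n
    simp only [β, η]
    push_cast
    have hd0 := hden n
    have hd1 : 0 < c + g * ((n : ℝ) + 1) := by
      have := hden (n + 1)
      push_cast at this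
      exact this
    have h1 : 1 - ((c + g * ((n : ℝ) + 1)) / (c + g * n))⁻¹ ≤
        Real.log ((c + g * ((n : ℝ) + 1)) / (c + g * n)) :=
      Real.one_sub_inv_le_log_of_pos (div_pos hd1 hd0)
    rw [Real.log_div hd1.ne' hd0.ne', inv_div] at h1
    have h2 : 1 - (c + g * (n : ℝ)) / (c + g * ((n : ℝ) + 1)) = g / (c + g * ((n : ℝ) + 1)) := by
      field_simp
      ring
    rw [h2] at h1
    have h3 := mul_le_mul_of_nonneg_left h1 hc0.le
    have h4 : c / (c + g * ((n : ℝ) + 1)) * g = c * (g / (c + g * ((n : ℝ) + 1))) := by ring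
    nlinarith
  have hu0 : 0 < β k := hβpos k
  have h1r : (0 : ℝ) < 1 + 1 / (r : ℝ) := by positivity
  have hβk : (1 + 1 / (r : ℝ)) * β k ≤ s := hs
  have hspos : (0 : ℝ) < s := lt_of_lt_of_le (mul_pos h1r hu0) hβk
  have hpow : (k : ℝ) * m ≤ (1 + 1 / (r : ℝ)) ^ q := by
    rw [hq, pow_mul]
    have h1 : (2 : ℝ) ^ ℓ ≤ ((1 + 1 / (r : ℝ)) ^ r) ^ ℓ :=
      pow_le_pow_left₀ (by norm_num) (two_le_pow r hr) ℓ
    have h2 : k * m < 2 ^ ℓ := Nat.lt_pow_succ_log_self (by norm_num) _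
    have h3 : ((k * m : ℕ) : ℝ) < ((2 ^ ℓ : ℕ) : ℝ) := by exact_mod_cast h2
    push_cast at h3
    linarith
  have hcard : (Finset.univ : Finset (Fin k)).card = k := by simp
  have hpos : ∀ i a, (0 : ℝ) < ((L i a).card : ℝ) := fun i a => by rw [hL i a]; exact hspos
  have hBB : ∑ i : Fin k, ∑ a : Fin m, (((L i a).card : ℝ)⁻¹) ^ q ≤ ((β k)⁻¹) ^ q := by
    calc ∑ i : Fin k, ∑ a : Fin m, (((L i a).card : ℝ)⁻¹) ^ q
        = ∑ i : Fin k, ∑ a : Fin m, ((s : ℝ)⁻¹) ^ q := by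
          apply Finset.sum_congr rfl
          intro i _
          apply Finset.sum_congr rfl
          intro a _
          rw [hL i a]
      _ = (k * m) * ((s : ℝ)⁻¹) ^ q := by
          simp [Finset.sum_const]; ring
      _ ≤ (1 + 1 / (r : ℝ)) ^ q * ((s : ℝ)⁻¹) ^ q :=
          mul_le_mul_of_nonneg_right hpow (by positivity)
      _ = ((1 + 1 / (r : ℝ)) * (s : ℝ)⁻¹) ^ q := by rw [← mul_pow]
      _ ≤ ((β k)⁻¹) ^ q := by
          apply pow_le_pow_left₀ (by positivity)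
          rw [← div_eq_mul_inv, div_le_iff₀ hspos, inv_mul_eq_div, le_div_iff₀ hu0]
          exact hβk
  obtain ⟨f, hf1, hf2⟩ := step_induction' hm hg hg0 q hq1 η β hη hβpos hβ hβs k Finset.univ L
    (β k) hcard (fun i _ a => Finset.card_pos.1 (by exact_mod_cast hpos i a)) le_rfl hBB
  exact ⟨f, fun i a => hf1 i (Finset.mem_univ _) a,
      fun i j h a b => hf2 i (Finset.mem_univ _) j (Finset.mem_univ _) h a b⟩

theorem choiceNum_le3 {m : ℕ} (hm : 1 ≤ m) (k r : ℕ) (hr : 1 ≤ r) (c : ℝ)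
    (hc : c = (r : ℝ) * ((Nat.log 2 (k * m) : ℝ) + 1) * m) :
    (choiceNum (SimpleGraph.completeEquipartiteGraph k m) : ℝ) ≤
      (1 + 1 / (r : ℝ)) *
        (2 * c + gap m * k + c * (Real.log (c + gap m * k) - Real.log c)) + 1 := by
  have hg1 := one_le_gap hm
  have hr0 : (0 : ℝ) < r := by exact_mod_cast hr
  have hm0 : (0 : ℝ) < m := by exact_mod_cast hm
  have hc0 : 0 < c := by rw [hc]; positivity
  have h := upper_explicit' hm (gapAtMost_gap m) (by linarith) k r hr _ c hc (Nat.le_ceil _)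
  have h' := (choosable_iff k m _).2 h
  have h1 : choiceNum (SimpleGraph.completeEquipartiteGraph k m) ≤ _ := Nat.sInf_le h'
  have h2 := (Nat.cast_le (α := ℝ)).2 h1
  refine h2.trans (Nat.ceil_lt_add_one ?_).le
  have hlog0 : 0 ≤ Real.log (c + gap m * (k : ℝ)) - Real.log c := by
    rw [sub_nonneg]
    apply Real.log_le_log hc0
    have : 0 ≤ gap m * (k : ℝ) := by positivity
    linarith
  positivity

end Pool.Agent.Y14.CG
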