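import Mathlib
import Pool.Agent.TH454.CM.Limit

set_option autoImplicit false

namespace Pool.Agent.Y14.CG

open Finset Pool.Agent.TH454.CM Matrix

theorem card_dot (n : ℕ) (x : Fin n → ZMod 2) (hx : x ≠ 0) :
    2 * (Finset.univ.filter (fun u : Fin n → ZMod 2 => u ⬝ᵥ x = 1)).card = 2 ^ n := by
  classical
  obtain ⟨i, hi⟩ : ∃ i, x i ≠ 0 := by
    by_contra h
    push Not at h
    exact hx (funext h)
  have hi1 : x i = 1 := by
    revert hi
    generalize x i = z
    revert z
    decide
  have hinv : ∀ u : Fin n → ZMod 2, (u + Pi.single i 1) ⬝ᵥ x = u ⬝ᵥ x + 1 := by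
    intro u
    rw [add_dotProduct, single_dotProduct, hi1, one_mul]
  have hss : (Pi.single i 1 : Fin n → ZMod 2) + Pi.single i 1 = 0 := by
    funext j
    simp only [Pi.add_apply, Pi.zero_apply]
    generalize (Pi.single i 1 : Fin n → ZMod 2) j = z
    revert z
    decide
  have hcard : (Finset.univ.filter (fun u : Fin n → ZMod 2 => u ⬝ᵥ x = 1)).card =
      (Finset.univ.filter (fun u : Fin n → ZMod 2 => ¬ (u ⬝ᵥ x = 1))).card := by
    apply Finset.card_bij (fun u _ => u + Pi.single i 1)
    · intro u hu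
      rw [Finset.mem_filter] at hu ⊢
      refine ⟨Finset.mem_univ _, ?_⟩
      rw [hinv, hu.2]
      decide
    · intro u _ u' _ h
      exact add_right_cancel h
    · intro v hv
      rw [Finset.mem_filter] at hv
      refine ⟨v + Pi.single i 1, ?_, ?_⟩
      · rw [Finset.mem_filter]
        refine ⟨Finset.mem_univ _, ?_⟩
        rw [hinv]
        have h := hv.2
        revert h
        generalize v ⬝ᵥ x = z
        revert z
        decide
      · rw [add_assoc, hss, add_zero]
  have hsum := Finset.card_filter_add_card_filter_not (s := (Finset.univ : Finset (Fin n → ZMod 2)))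
    (fun u : Fin n → ZMod 2 => u ⬝ᵥ x = 1)
  rw [← hcard, Finset.card_univ] at hsum
  have hV : Fintype.card (Fin n → ZMod 2) = 2 ^ n := by simp [ZMod.card]
  rw [hV] at hsum
  omega

/-- Lower bound of the integrality gap by complements of hyperplanes over the two-element field. -/
theorem cube_lower (n m : ℕ) (hn : 1 ≤ n) (hm : 2 ^ n - 1 ≤ m) {g : ℝ} (hg : GapAtMost m g) :
    (n : ℝ) * 2 ^ n / (2 * (2 ^ n - 1)) ≤ g := by
  classical
  have hV : Fintype.card (Fin n → ZMod 2) = 2 ^ n := by simp [ZMod.card]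
  have h2n : (2 : ℝ) ≤ 2 ^ n := by
    calc (2 : ℝ) = 2 ^ 1 := by norm_num
      _ ≤ 2 ^ n := pow_le_pow_right₀ (by norm_num) hn
  -- the surjection
  have hcardX : Fintype.card {x : Fin n → ZMod 2 // x ≠ 0} = 2 ^ n - 1 := by
    have := Fintype.card_subtype_compl (fun x : Fin n → ZMod 2 => x = 0)
    rw [hV, Fintype.card_subtype_eq] at this
    exact this
  have : Nonempty {x : Fin n → ZMod 2 // x ≠ 0} := by
    rw [← Fintype.card_pos_iff, hcardX]
    have : 2 ^ 1 ≤ 2 ^ n := Nat.pow_le_pow_right (by norm_num) hn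
    omega
  obtain ⟨e⟩ : Nonempty ({x : Fin n → ZMod 2 // x ≠ 0} ↪ Fin m) := by
    apply Function.Embedding.nonempty_of_card_le
    rw [hcardX, Fintype.card_fin]
    exact hm
  let φ : Fin m → {x : Fin n → ZMod 2 // x ≠ 0} := Function.invFun e
  have hφ : Function.Surjective φ := Function.invFun_surjective e.injective
  let T : (Fin n → ZMod 2) → Finset (Fin m) := fun u =>
    Finset.univ.filter (fun a => u ⬝ᵥ (φ a).1 = 1)
  have hTmem : ∀ u a, a ∈ T u ↔ u ⬝ᵥ (φ a).1 = 1 := fun u a => by simp [T]
  have hTinj : Function.Injective T := by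
    intro u u' h
    funext i
    obtain ⟨a, ha⟩ := hφ ⟨Pi.single i 1, by
      intro h0
      have := congrFun h0 i
      simp at this⟩
    have h1 : a ∈ T u ↔ a ∈ T u' := by rw [h]
    rw [hTmem, hTmem, ha] at h1
    simp only [dotProduct_single, mul_one] at h1
    revert h1
    generalize u i = z
    generalize u' i = z'
    revert z z'
    decide
  let F : Finset (Finset (Fin m)) := (Finset.univ.filter (fun u : Fin n → ZMod 2 => u ≠ 0)).image T
  have hFcard : (F.card : ℝ) = 2 ^ n - 1 := by
    have h1 : F.card = 2 ^ n - 1 := by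
      rw [Finset.card_image_of_injective _ hTinj, ← hcardX, Fintype.card_subtype]
    have h2 : F.card + 1 = 2 ^ n := by
      have : 1 ≤ 2 ^ n := Nat.one_le_two_pow
      omega
    have h3 : (F.card : ℝ) + 1 = 2 ^ n := by exact_mod_cast h2
    linarith
  let w : Finset (Fin m) → ℝ := fun S => if S ∈ F then 1 else n
  let y : Finset (Fin m) → ℝ := fun S => if S ∈ F then 2 / 2 ^ n else 0
  have hw : ∀ S, 0 ≤ w S := fun S => by
    simp only [w]
    split_ifs
    · norm_num
    · positivity
  have hy : IsFracCover m y := by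
    refine ⟨fun S => by
      simp only [y]
      split_ifs
      · positivity
      · exact le_rfl, fun a => ?_⟩
    have h1 : ∑ S ∈ Finset.univ.filter (fun S : Finset (Fin m) => a ∈ S), y S =
        ((F.filter (fun S => a ∈ S)).card : ℝ) * (2 / 2 ^ n) := by
      simp only [y]
      rw [← Finset.sum_filter, Finset.sum_const, nsmul_eq_mul]
      congr 3
      ext S
      simp only [Finset.mem_filter, Finset.mem_univ, true_and]
      tauto
    have h2 : F.filter (fun S => a ∈ S) =
        (Finset.univ.filter (fun u : Fin n → ZMod 2 => u ⬝ᵥ (φ a).1 = 1)).image T := by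
      ext S
      simp only [F, Finset.mem_filter, Finset.mem_image, Finset.mem_univ, true_and]
      constructor
      · rintro ⟨⟨u, _, rfl⟩, ha⟩
        exact ⟨u, (hTmem u a).1 ha, rfl⟩
      · rintro ⟨u, hu, rfl⟩
        refine ⟨⟨u, ?_, rfl⟩, (hTmem u a).2 hu⟩
        rintro rfl
        simp at hu
    have h3 : 2 * (F.filter (fun S => a ∈ S)).card = 2 ^ n := by
      rw [h2, Finset.card_image_of_injective _ hTinj]
      exact card_dot n _ (φ a).2
    have h4 : 2 * ((F.filter (fun S => a ∈ S)).card : ℝ) = 2 ^ n := by exact_mod_cast h3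
    rw [h1, mul_div_assoc', le_div_iff₀ (by positivity)]
    linarith
  obtain ⟨C, hC, hCc⟩ := hg w y hw hy
  have hΩ : ∑ S, w S * y S = (2 ^ n - 1) * (2 / 2 ^ n) := by
    rw [← hFcard]
    have h1 : ∀ S, w S * y S = if S ∈ F then (2 / 2 ^ n : ℝ) else 0 := by
      intro S
      simp only [w, y]
      split_ifs
      · ring
      · ring
    simp only [h1]
    rw [Finset.sum_ite_mem, Finset.univ_inter, Finset.sum_const, nsmul_eq_mul]
  have hcost : (n : ℝ) ≤ ∑ S ∈ C, w S := by
    by_cases hall : ∀ S ∈ C, S ∈ F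
    · have h1 : ∑ S ∈ C, w S = (C.card : ℝ) := by
        rw [Finset.sum_congr rfl (g := fun _ => (1 : ℝ)) (fun S hS => by simp [w, hall S hS])]
        simp
      rw [h1]
      by_contra hcon
      rw [not_le] at hcon
      have hcon' : C.card < n := by exact_mod_cast hcon
      have hex : ∀ S : C, ∃ u : Fin n → ZMod 2, T u = S.1 := by
        intro S
        obtain ⟨u, _, hu⟩ := Finset.mem_image.1 (hall S.1 S.2)
        exact ⟨u, hu⟩
      choose U hU using hex
      have hlt : Fintype.card (C → ZMod 2) < Fintype.card (Fin n → ZMod 2) := by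
        rw [hV, Fintype.card_fun, ZMod.card, Fintype.card_coe]
        exact Nat.pow_lt_pow_right (by norm_num) hcon'
      obtain ⟨x, x', hne, hxx⟩ := Fintype.exists_ne_map_eq_of_card_lt
        (fun (x : Fin n → ZMod 2) (S : C) => U S ⬝ᵥ x) hlt
      obtain ⟨a, ha⟩ := hφ ⟨x - x', sub_ne_zero.2 hne⟩
      obtain ⟨S, hS, haS⟩ := hC a
      have h2 := congrFun hxx ⟨S, hS⟩
      have h3 : a ∈ T (U ⟨S, hS⟩) := by rw [hU]; exact haS
      rw [hTmem, ha] at h3
      simp only [dotProduct_sub] at h3
      rw [h2, sub_self] at h3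
      exact absurd h3 (by decide)
    · push Not at hall
      obtain ⟨S, hS, hSF⟩ := hall
      have h1 : w S = n := by simp [w, hSF]
      rw [← h1]
      exact Finset.single_le_sum (fun S _ => hw S) hS
  rw [hΩ] at hCc
  have h5 : (n : ℝ) ≤ g * ((2 ^ n - 1) * (2 / 2 ^ n)) := hcost.trans hCc
  rw [div_le_iff₀ (by nlinarith)]
  have h6 : (n : ℝ) * 2 ^ n ≤ (g * ((2 ^ n - 1) * (2 / 2 ^ n))) * 2 ^ n :=
    mul_le_mul_of_nonneg_right h5 (by positivity)
  have h7 : (g * ((2 ^ n - 1) * (2 / 2 ^ n))) * (2 : ℝ) ^ n = g * (2 * (2 ^ n - 1)) := by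
    field_simp
  linarith

end Pool.Agent.Y14.CG
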