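import Mathlib
import Pool.Agent.TH454.CM.Limit

set_option autoImplicit false

namespace Pool.Agent.Y14.CG

open Finset Pool.Agent.TH454.CM

theorem harmonic_step' (n : ℕ) (hn : 0 < n) :
    ∀ d i : ℕ, i + d = n →
      ((harmonic i : ℚ) : ℝ) + (d : ℝ) / n ≤ ((harmonic n : ℚ) : ℝ) := by
  have hn' : (0 : ℝ) < n := by exact_mod_cast hn
  intro d
  induction d with
  | zero =>
    intro i hi
    have : i = n := by omega
    rw [this]
    simp
  | succ d ih =>
    intro i hi
    have h1 := ih (i + 1) (by omega)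
    rw [harmonic_succ] at h1
    push_cast at h1 ⊢
    have h2 : (n : ℝ)⁻¹ ≤ ((i : ℝ) + 1)⁻¹ := by
      apply inv_anti₀ (by positivity)
      have : i + 1 ≤ n := by omega
      exact_mod_cast this
    have h3 : ((d : ℝ) + 1) / n = (d : ℝ) / n + (n : ℝ)⁻¹ := by
      field_simp
    linarith

/-- Chvátal's greedy bound. -/
theorem greedy {m : ℕ} (w y : Finset (Fin m) → ℝ) (hw : ∀ T, 0 ≤ w T) (hy : IsFracCover m y) :
    ∀ n : ℕ, ∀ U : Finset (Fin m), U.card = n →
      ∃ C : Finset (Finset (Fin m)), (∀ a ∈ U, ∃ T ∈ C, a ∈ T) ∧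
        ∑ T ∈ C, w T ≤ ((harmonic n : ℚ) : ℝ) * ∑ T, w T * y T := by
  classical
  set Ω := ∑ T, w T * y T with hΩ
  have hΩ0 : 0 ≤ Ω := Finset.sum_nonneg fun T _ => mul_nonneg (hw T) (hy.1 T)
  intro n
  induction n using Nat.strong_induction_on with
  | _ n ih =>
    intro U hU
    by_cases hn : n = 0
    · subst hn
      rw [Finset.card_eq_zero] at hU
      subst hU
      exact ⟨∅, by simp, by simp⟩
    have hn0 : 0 < n := Nat.pos_of_ne_zero hn
    have hn0' : (0 : ℝ) < n := by exact_mod_cast hn0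
    have hUne : U.Nonempty := by rw [← Finset.card_pos]; omega
    have hne : (Finset.univ.filter (fun T : Finset (Fin m) => (T ∩ U).Nonempty)).Nonempty := by
      refine ⟨U, ?_⟩
      rw [Finset.mem_filter, Finset.inter_self]
      exact ⟨Finset.mem_univ _, hUne⟩
    obtain ⟨T0, hT0, hmin⟩ := Finset.exists_min_image _ (fun T => w T / ((T ∩ U).card : ℝ)) hne
    have hT0' : (T0 ∩ U).Nonempty := (Finset.mem_filter.1 hT0).2
    set j := (T0 ∩ U).card with hj
    have hj1 : 0 < j := Finset.card_pos.2 hT0'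
    have hj1' : (0 : ℝ) < j := by exact_mod_cast hj1
    have hjn : j ≤ n := by
      rw [← hU]
      exact Finset.card_le_card Finset.inter_subset_right
    set ρ := w T0 / (j : ℝ) with hρ
    have hρ0 : 0 ≤ ρ := div_nonneg (hw _) (Nat.cast_nonneg _)
    have hall : ∀ T, ρ * ((T ∩ U).card : ℝ) ≤ w T := by
      intro T
      by_cases hT : (T ∩ U).Nonempty
      · have h1 := hmin T (Finset.mem_filter.2 ⟨Finset.mem_univ _, hT⟩)
        have h2 : (0 : ℝ) < ((T ∩ U).card : ℝ) := by exact_mod_cast Finset.card_pos.2 hT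
        have h3 : ρ ≤ w T / ((T ∩ U).card : ℝ) := h1
        rwa [le_div_iff₀ h2] at h3
      · rw [Finset.not_nonempty_iff_eq_empty] at hT
        rw [hT]
        simpa using hw T
    have h1 : (n : ℝ) ≤ ∑ T : Finset (Fin m), ((T ∩ U).card : ℝ) * y T := by
      calc (n : ℝ) = ∑ a ∈ U, (1 : ℝ) := by rw [Finset.sum_const, hU]; simp
        _ ≤ ∑ a ∈ U, ∑ T ∈ Finset.univ.filter (fun T : Finset (Fin m) => a ∈ T), y T :=
            Finset.sum_le_sum fun a _ => hy.2 a
        _ = ∑ a ∈ U, ∑ T : Finset (Fin m), if a ∈ T then y T else 0 := by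
            simp only [Finset.sum_filter]
        _ = ∑ T : Finset (Fin m), ∑ a ∈ U, if a ∈ T then y T else 0 := Finset.sum_comm
        _ = ∑ T : Finset (Fin m), ((T ∩ U).card : ℝ) * y T := by
            apply Finset.sum_congr rfl
            intro T _
            rw [← Finset.sum_filter, Finset.sum_const, nsmul_eq_mul]
            have : U.filter (fun a => a ∈ T) = T ∩ U := by
              ext a
              simp [and_comm]
            rw [this]
    have hρΩ : ρ * n ≤ Ω := by
      calc ρ * n ≤ ρ * ∑ T : Finset (Fin m), ((T ∩ U).card : ℝ) * y T :=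
            mul_le_mul_of_nonneg_left h1 hρ0
        _ = ∑ T : Finset (Fin m), (ρ * ((T ∩ U).card : ℝ)) * y T := by
            rw [Finset.mul_sum]
            apply Finset.sum_congr rfl
            intro T _
            ring
        _ ≤ ∑ T, w T * y T :=
            Finset.sum_le_sum fun T _ => mul_le_mul_of_nonneg_right (hall T) (hy.1 T)
    have hcard : (U \ T0).card = n - j := by
      have h2 := Finset.card_sdiff_add_card_inter U T0
      rw [Finset.inter_comm] at h2
      omega
    obtain ⟨C, hC1, hC2⟩ := ih (n - j) (by omega) (U \ T0) hcard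
    refine ⟨insert T0 C, ?_, ?_⟩
    · intro a ha
      by_cases haT : a ∈ T0
      · exact ⟨T0, Finset.mem_insert_self _ _, haT⟩
      · obtain ⟨T, hT, haT'⟩ := hC1 a (Finset.mem_sdiff.2 ⟨ha, haT⟩)
        exact ⟨T, Finset.mem_insert_of_mem hT, haT'⟩
    · have h2 : ∑ T ∈ insert T0 C, w T ≤ w T0 + ∑ T ∈ C, w T := by
        by_cases hmem : T0 ∈ C
        · rw [Finset.insert_eq_of_mem hmem]
          linarith [hw T0]
        · rw [Finset.sum_insert hmem]
      have h3 : w T0 = ρ * j := by
        rw [hρ]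
        field_simp
      have h4 := harmonic_step' n hn0 j (n - j) (by omega)
      have h5 : ρ ≤ Ω / n := by
        rw [le_div_iff₀ hn0']
        exact hρΩ
      have h6 : w T0 ≤ (j : ℝ) / n * Ω := by
        rw [h3]
        calc ρ * j ≤ Ω / n * j := mul_le_mul_of_nonneg_right h5 hj1'.le
          _ = (j : ℝ) / n * Ω := by ring
      have h7 := mul_le_mul_of_nonneg_right h4 hΩ0
      linarith

/-- The integrality gap is at most the harmonic number. -/
theorem gapAtMost_harmonic (m : ℕ) : GapAtMost m ((harmonic m : ℚ) : ℝ) := by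
  classical
  intro w y hw hy
  obtain ⟨C, hC1, hC2⟩ := greedy w y hw hy m Finset.univ (by simp)
  exact ⟨C, fun a => hC1 a (Finset.mem_univ _), hC2⟩

theorem gap_le_harmonic {m : ℕ} (hm : 1 ≤ m) : gap m ≤ ((harmonic m : ℚ) : ℝ) :=
  csInf_le (gap_set_bddBelow hm) (gapAtMost_harmonic m)

end Pool.Agent.Y14.CG
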